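import Pool.Agent.H65.HX.GBas

/-!
# Project HX, part TRZ
-/

set_option autoImplicit false
open Classical Finset

namespace Pool.Agent.H44.HX

open Pool.Agent.H21.HV (nb Prp TotLab)
open Pool.Agent.H39.HW (sm Av ln blk lab Reg)
open Pool.Agent.H65.HX
open Pool.Agent.H65.HW (cell)

/-- a sum over a filtered set splits by a Boolean -/
theorem sum_bool (X : Finset ℕ) (b : ℕ → Bool) (g : ℕ → ℕ) :
    ∑ x ∈ X, g x = ∑ x ∈ X.filter (fun x => b x = false), g x +
      ∑ x ∈ X.filter (fun x => b x = true), g x := by
  rw [← Finset.sum_filter_add_sum_filter_not X (fun x => b x = false) g]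
  congr 1
  refine Finset.sum_congr ?_ (fun _ _ => rfl)
  ext x
  simp only [mem_filter, Bool.not_eq_false]

theorem t_TRZ (hTRN : S_TRN) (hCNT : S_CNT) (hNDG : S_NDG) : S_TRZ := by
  intro V _ G D p s cl x f T c X bX hC hW hL hT hX z hz
  have hsch := hC.sch
  have hN := hNDG V G D p s cl x f T c hC hW hL hT z hz
  have hcnt := hCNT V G D p s cl x f T c X bX hC hW hL hT hX z hz
  by_cases h0 : cl z ∈ s.R0
  · -- rigid
    have key : ∀ τ : Bool, ∃ r : ℕ → ℕ,
        (∀ y < s.m, s.part y ∈ (range s.H).filter (fun P => s.ty P = τ) →
          r y ≤ Nz G T s cl z y ∧ (r y : ℝ) ≤ 4 * s.ρ2 * s.ω * D) ∧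
        (∀ P ∈ (range s.H).filter (fun P => s.ty P = τ),
          ∑ y ∈ (range s.m).filter (fun y => s.part y = P), r y =
            (lab s.st (s.S P (cl z))).card) ∧
        ∀ β ∈ (s.cls p (cl z)).filter (fun β => decide (cl z < β) = τ),
          ∑ y ∈ (range s.m).filter (fun y => s.φ y (cl z) = β), Nz G T s cl z y =
            pz G s cl X bX z β + ∑ y ∈ (range s.m).filter (fun y => s.φ y (cl z) = β), r y := by
      intro τ
      apply hTRN D p s (cl z) _ _ (Nz G T s cl z) (pz G s cl X bX z)
      have hpt : ∀ τ' : Bool, (range s.m).filter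
          (fun y => s.part y ∈ (range s.H).filter (fun P => s.ty P = τ')) =
          (range s.m).filter (fun y => s.ty (s.part y) = τ') := by
        intro τ'
        refine Finset.filter_congr ?_
        intro y hy
        simp only [mem_filter, mem_range]
        constructor
        · exact fun h => h.2
        · exact fun h => ⟨hsch.prt y (mem_range.1 hy), h⟩
      refine
        { sch := hsch
          big := hC.big
          aR := hz
          P1 := filter_subset _ _
          P2 := ?_
          C1 := filter_subset _ _
          ser := ?_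
          lo := fun y hy => (hN.1 y hy).1
          up := fun y hy => (hN.1 y hy).2
          sum := hN.2
          pi := ?_
          cnt := ?_
          hu2 := ?_
          hu3 := ?_ }
      · obtain ⟨P, hP, hP'⟩ := hsch.rg0 τ
        exact ⟨P, mem_filter.2 ⟨mem_range.2 hP, hP'⟩⟩
      · intro y hy
        simp only [mem_filter, mem_range]
        constructor
        · intro h
          exact ⟨hsch.ph1 y hy _ hz, (hsch.rg1 y hy _ h0).symm.trans h.2⟩
        · intro h
          exact ⟨hsch.prt y hy, (hsch.rg1 y hy _ h0).trans h.2⟩
      · intro β hβ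
        exact (hX.tol z hz β (mem_filter.1 hβ).1).2
      · rw [hpt τ]
        have hb := hX.bal z h0
        cases τ with
        | false => exact hb.symm
        | true =>
          have e1 := sum_bool (range s.m) (fun y => s.ty (s.part y)) (Nz G T s cl z)
          have e2 := sum_bool (s.cls p (cl z)) (fun β => decide (cl z < β)) (pz G s cl X bX z)
          have e3 := sum_bool (range s.H) s.ty (fun P => (lab s.st (s.S P (cl z))).card)
          omega
      · intro β hβ hβ' P hP
        refine hsch.hb2 _ hz β hβ P (mem_range.1 (mem_filter.1 hP).1) ?_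
        intro _
        exact (mem_filter.1 hP).2.trans (mem_filter.1 hβ').2.symm
      · have he : (s.Hb (cl z)).filter (fun β => β ∈ (s.cls p (cl z)).filter
            (fun β => decide (cl z < β) = τ)) =
            (s.Hb (cl z)).filter (fun β => decide (cl z < β) = τ) := by
          refine Finset.filter_congr ?_
          intro β hβ
          simp only [mem_filter]
          constructor
          · exact fun h => h.2
          · exact fun h => ⟨hsch.hb1 _ hz hβ, h⟩
        rw [he]
        exact hsch.hb4 _ h0 τ
    obtain ⟨r0, h01, h02, h03⟩ := key false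
    obtain ⟨r1, h11, h12, h13⟩ := key true
    refine ⟨fun y => if s.ty (s.part y) = true then r1 y else r0 y, ?_, ?_, ?_⟩
    · intro y hy
      by_cases hty : s.ty (s.part y) = true
      · simp only [hty, if_true]
        exact h11 y hy (mem_filter.2 ⟨mem_range.2 (hsch.prt y hy), hty⟩)
      · simp only [if_neg hty]
        exact h01 y hy (mem_filter.2 ⟨mem_range.2 (hsch.prt y hy), Bool.eq_false_iff.2 hty⟩)
    · intro P hP
      by_cases hty : s.ty P = true
      · rw [← h12 P (mem_filter.2 ⟨mem_range.2 hP, hty⟩)]
        refine Finset.sum_congr rfl ?_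
        intro y hy
        have h1 : s.ty (s.part y) = true := by rw [(mem_filter.1 hy).2]; exact hty
        simp only [h1, if_true]
      · rw [← h02 P (mem_filter.2 ⟨mem_range.2 hP, Bool.eq_false_iff.2 hty⟩)]
        refine Finset.sum_congr rfl ?_
        intro y hy
        have h1 : ¬ s.ty (s.part y) = true := by rw [(mem_filter.1 hy).2]; exact hty
        simp only [if_neg h1]
    · intro β hβ
      by_cases hty : decide (cl z < β) = true
      · rw [h13 β (mem_filter.2 ⟨hβ, hty⟩)]
        congr 1
        refine Finset.sum_congr rfl ?_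
        intro y hy
        have h1 := hsch.rg1 y (mem_range.1 (mem_filter.1 hy).1) _ h0
        rw [(mem_filter.1 hy).2, hty] at h1
        simp only [h1, if_true]
      · rw [h03 β (mem_filter.2 ⟨hβ, Bool.eq_false_iff.2 hty⟩)]
        congr 1
        refine Finset.sum_congr rfl ?_
        intro y hy
        have h1 := hsch.rg1 y (mem_range.1 (mem_filter.1 hy).1) _ h0
        rw [(mem_filter.1 hy).2, Bool.eq_false_iff.2 hty] at h1
        have h2 : ¬ s.ty (s.part y) = true := by rw [h1]; exact Bool.false_ne_true
        simp only [if_neg h2]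
  · -- not rigid
    have hser : ∀ y < s.m, s.part y ∈ range s.H ↔ s.φ y (cl z) ∈ s.cls p (cl z) := by
      intro y hy
      exact ⟨fun _ => hsch.ph1 y hy _ hz, fun _ => mem_range.2 (hsch.prt y hy)⟩
    obtain ⟨r, h1, h2, h3⟩ := hTRN D p s (cl z) (range s.H) (s.cls p (cl z)) (Nz G T s cl z)
      (pz G s cl X bX z)
      { sch := hsch
        big := hC.big
        aR := hz
        P1 := subset_rfl
        P2 := ⟨0, mem_range.2 hsch.hH⟩
        C1 := subset_rfl
        ser := hser
        lo := fun y hy => (hN.1 y hy).1
        up := fun y hy => (hN.1 y hy).2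
        sum := hN.2
        pi := fun β hβ => (hX.tol z hz β hβ).2
        cnt := by
          rw [← hcnt]
          refine Finset.sum_congr ?_ (fun _ _ => rfl)
          refine Finset.filter_true_of_mem ?_
          intro y hy
          exact mem_range.2 (hsch.prt y (mem_range.1 hy))
        hu2 := fun β hβ _ P hP => hsch.hb2 _ hz β hβ P (mem_range.1 hP) (fun h => absurd h h0)
        hu3 := by
          rw [Finset.filter_true_of_mem (fun β hβ => hsch.hb1 _ hz hβ)]
          exact hsch.hb3 _ hz h0 }
    exact ⟨r, fun y hy => h1 y hy (mem_range.2 (hsch.prt y hy)),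
      fun P hP => h2 P (mem_range.2 hP), h3⟩

end Pool.Agent.H44.HX
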